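import Pool.Agent.W606.PS.Stm

/-!
Project PS (helper606), MP_9863c1_co: part TDSP.
-/

set_option autoImplicit false

namespace Pool.Agent.W636.PST

open Pool.Agent.W606.PS

theorem main : S_TDSP := by
  intro a b w H hb hTD
  obtain ⟨m, T, B, hT, he, hc, hw⟩ := hTD
  have hset : ∀ v : Fin a × Fin b, {t | v ∈ B t ×ˢ (Finset.univ : Finset (Fin b))} =
      {t | v.1 ∈ B t} := by
    intro v
    ext t
    simp [Finset.mem_product]
  refine ⟨m, T, fun t => B t ×ˢ (Finset.univ : Finset (Fin b)), hT, ?_, ?_, ?_⟩
  · intro u v huv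
    have h1 : (u.1 = v.1 ∨ H.Adj u.1 v.1) := by
      unfold SP at huv
      rw [SimpleGraph.fromRel_adj] at huv
      rcases huv.2 with h | h
      · exact h.1
      · rcases h.1 with h | h
        · exact Or.inl h.symm
        · exact Or.inr h.symm
    rcases h1 with h1 | h1
    · obtain ⟨⟨t, ht⟩⟩ := (hc u.1).nonempty
      refine ⟨t, ?_, ?_⟩
      · simpa [Finset.mem_product] using ht
      · have : v.1 ∈ B t := h1 ▸ ht
        simpa [Finset.mem_product] using this
    · obtain ⟨t, ht, ht'⟩ := he _ _ h1
      exact ⟨t, by simpa [Finset.mem_product] using ht, by simpa [Finset.mem_product] using ht'⟩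
  · intro v
    have := hc v.1
    rw [hset v]
    exact this
  · intro t
    rw [Finset.card_product, Finset.card_univ, Fintype.card_fin]
    exact Nat.mul_le_mul_right b (hw t)

end Pool.Agent.W636.PST
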